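import Mathlib
import Pool.Agent.H773.IE.SH

/-!
# The Cartan decomposition of `SL(d,ℝ)` and compactness of the orthogonal matrices
-/

set_option autoImplicit false

open Set Filter Topology
open Pool.Agent.H773.IE

namespace Pool.Agent.H77.IE

/-- an orthogonal matrix diagonalizing a positive definite one can be taken of determinant one -/
theorem exists_diag (d : ℕ) (hd : 2 ≤ d) (P : Matrix (Fin d) (Fin d) ℝ) (hP : P.PosDef) :
    ∃ (Q : Matrix (Fin d) (Fin d) ℝ) (l : Fin d → ℝ), Q.transpose * Q = 1 ∧ Q.det = 1 ∧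
      (∀ i, 0 < l i) ∧ P * Q = Q * Matrix.diagonal l := by
  classical
  have hH := hP.1
  set U : Matrix (Fin d) (Fin d) ℝ := (hH.eigenvectorUnitary : Matrix (Fin d) (Fin d) ℝ) with hU
  have hUU : U.transpose * U = 1 := by
    have h := Unitary.coe_star_mul_self hH.eigenvectorUnitary
    rw [Matrix.star_eq_conjTranspose, Matrix.conjTranspose_eq_transpose_of_trivial] at h
    exact h
  have hspec : P = U * Matrix.diagonal hH.eigenvalues * U.transpose := by
    have h := hH.spectral_theorem
    rw [Unitary.conjStarAlgAut_apply] at h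
    rw [Matrix.star_eq_conjTranspose, Matrix.conjTranspose_eq_transpose_of_trivial] at h
    exact h
  have hPU : P * U = U * Matrix.diagonal hH.eigenvalues := by
    conv_lhs => rw [hspec]
    rw [Matrix.mul_assoc, hUU, Matrix.mul_one]
  have hdet : U.det * U.det = 1 := by
    have h := congrArg Matrix.det hUU
    rwa [Matrix.det_mul, Matrix.det_transpose, Matrix.det_one] at h
  set s : Fin d → ℝ := fun i => if i = ⟨0, by omega⟩ then U.det else 1 with hs
  have hs2 : ∀ i, s i * s i = 1 := by
    intro i
    rw [hs]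
    dsimp only
    split_ifs
    · exact hdet
    · norm_num
  have hsprod : ∏ i, s i = U.det := by
    rw [hs]
    rw [Finset.prod_ite_eq' Finset.univ (⟨0, by omega⟩ : Fin d) (fun _ => U.det)]
    simp
  refine ⟨U * Matrix.diagonal s, hH.eigenvalues, ?_, ?_, ?_, ?_⟩
  · rw [Matrix.transpose_mul, Matrix.diagonal_transpose, Matrix.mul_assoc,
      ← Matrix.mul_assoc U.transpose, hUU, Matrix.one_mul, Matrix.diagonal_mul_diagonal]
    have : (fun i => s i * s i) = fun _ => (1 : ℝ) := funext hs2
    rw [this, Matrix.diagonal_one]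
  · rw [Matrix.det_mul, Matrix.det_diagonal, hsprod, hdet]
  · intro i
    exact hP.eigenvalues_pos i
  · rw [← Matrix.mul_assoc, hPU, Matrix.mul_assoc, Matrix.mul_assoc, Matrix.diagonal_mul_diagonal,
      Matrix.diagonal_mul_diagonal]
    congr 2
    funext i
    exact mul_comm _ _

/-- the Cartan decomposition -/
theorem t_KAK : S_KAK := by
  classical
  intro d hd g
  set G : Matrix (Fin d) (Fin d) ℝ := g.1 with hG
  have hGdet : G.det = 1 := g.2
  have hinj : Function.Injective G.mulVec := by
    intro x y hxy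
    have hu : IsUnit G := (Matrix.isUnit_iff_isUnit_det G).mpr (by rw [hGdet]; exact isUnit_one)
    exact Matrix.mulVec_injective_iff_isUnit.mpr hu hxy
  have hP : (G.transpose * G).PosDef := by
    have h := Matrix.PosDef.conjTranspose_mul_self G hinj
    rwa [Matrix.conjTranspose_eq_transpose_of_trivial] at h
  obtain ⟨Q, l, hQQ, hQdet, hl, hPQ⟩ := exists_diag d hd _ hP
  set a : Fin d → ℝ := fun i => Real.sqrt (l i) with ha
  have hapos : ∀ i, 0 < a i := fun i => Real.sqrt_pos.mpr (hl i)
  have haa : ∀ i, a i * a i = l i := fun i => Real.mul_self_sqrt (hl i).le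
  have hQQ' : Q * Q.transpose = 1 := mul_eq_one_comm.mp hQQ
  have hldet : ∏ i, l i = 1 := by
    have h := congrArg Matrix.det hPQ
    rw [Matrix.det_mul, Matrix.det_mul, Matrix.det_mul, Matrix.det_transpose, hGdet, hQdet,
      Matrix.det_diagonal] at h
    linarith
  have hadet : (Matrix.diagonal a).det = 1 := by
    rw [Matrix.det_diagonal]
    have h1 : (∏ i, a i) * (∏ i, a i) = 1 := by
      rw [← Finset.prod_mul_distrib, ← hldet]
      exact Finset.prod_congr rfl fun i _ => haa i
    have h2 : 0 < ∏ i, a i := Finset.prod_pos fun i _ => hapos i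
    nlinarith
  have hbdet : (Matrix.diagonal fun i => (a i)⁻¹).det = 1 := by
    rw [Matrix.det_diagonal, Finset.prod_inv_distrib]
    rw [Matrix.det_diagonal] at hadet
    rw [hadet, inv_one]
  have hba : (Matrix.diagonal fun i => (a i)⁻¹) * Matrix.diagonal a
      = (1 : Matrix (Fin d) (Fin d) ℝ) := by
    rw [Matrix.diagonal_mul_diagonal]
    have : (fun i => (a i)⁻¹ * a i) = fun _ => (1 : ℝ) :=
      funext fun i => inv_mul_cancel₀ (hapos i).ne'
    rw [this, Matrix.diagonal_one]
  refine ⟨⟨G * Q * Matrix.diagonal (fun i => (a i)⁻¹), ?_⟩, ⟨Q.transpose, ?_⟩, a, hadet, hapos,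
    ?_, ?_, ?_⟩
  · rw [Matrix.det_mul, Matrix.det_mul, hGdet, hQdet, hbdet]
    norm_num
  · rw [Matrix.det_transpose, hQdet]
  · change (G * Q * Matrix.diagonal (fun i => (a i)⁻¹)).transpose *
      (G * Q * Matrix.diagonal (fun i => (a i)⁻¹)) = 1
    rw [Matrix.transpose_mul, Matrix.transpose_mul, Matrix.diagonal_transpose]
    have h1 : Matrix.diagonal (fun i => (a i)⁻¹) * (Q.transpose * G.transpose) *
        (G * Q * Matrix.diagonal (fun i => (a i)⁻¹)) =
        Matrix.diagonal (fun i => (a i)⁻¹) * (Q.transpose * ((G.transpose * G) * Q)) *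
          Matrix.diagonal (fun i => (a i)⁻¹) := by
      simp only [Matrix.mul_assoc]
    rw [h1, hPQ, ← Matrix.mul_assoc Q.transpose, hQQ, Matrix.one_mul,
      Matrix.diagonal_mul_diagonal, Matrix.diagonal_mul_diagonal]
    have : (fun i => (a i)⁻¹ * l i * (a i)⁻¹) = fun _ => (1 : ℝ) := by
      funext i
      rw [← haa i]
      have := (hapos i).ne'
      field_simp
    rw [this, Matrix.diagonal_one]
  · change (Q.transpose).transpose * Q.transpose = 1
    rw [Matrix.transpose_transpose, hQQ']
  · apply Subtype.ext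
    change G = G * Q * Matrix.diagonal (fun i => (a i)⁻¹) * Matrix.diagonal a * Q.transpose
    rw [Matrix.mul_assoc (G * Q), hba, Matrix.mul_one, Matrix.mul_assoc, hQQ', Matrix.mul_one]

/-- the orthogonal matrices are compact -/
theorem t_orthc : S_orthc := by
  intro d
  have hemb := Matrix.SpecialLinearGroup.isClosedEmbedding_val (n := Fin d) (R := ℝ)
  have hK : IsCompact {M : Matrix (Fin d) (Fin d) ℝ | M.transpose * M = 1} := by
    have hbox : IsCompact (Set.univ.pi fun _ : Fin d => Set.univ.pi fun _ : Fin d =>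
        Set.Icc (-1 : ℝ) 1) :=
      isCompact_univ_pi fun _ => isCompact_univ_pi fun _ => isCompact_Icc
    have hcl : IsClosed {M : Matrix (Fin d) (Fin d) ℝ | M.transpose * M = 1} := by
      have hc : Continuous fun M : Matrix (Fin d) (Fin d) ℝ => M.transpose * M :=
        (continuous_id.matrix_transpose).matrix_mul continuous_id
      exact isClosed_eq hc continuous_const
    refine hbox.of_isClosed_subset hcl ?_
    rintro (M : Matrix (Fin d) (Fin d) ℝ) (hM : M.transpose * M = 1) i _ j _
    have h1 : ∑ k, M k j * M k j = 1 := by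
      have h := congrFun (congrFun hM j) j
      rw [Matrix.mul_apply, Matrix.one_apply_eq] at h
      exact h
    have h2 : M i j * M i j ≤ 1 := by
      rw [← h1]
      exact Finset.single_le_sum (f := fun k => M k j * M k j)
        (fun k _ => mul_self_nonneg _) (Finset.mem_univ i)
    exact ⟨by nlinarith, by nlinarith⟩
  exact hemb.isCompact_preimage hK

end Pool.Agent.H77.IE
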